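import Mathlib

namespace Pool.Agent.Results.MP_260dff_co.Cubic

open Finset

section defs
variable {V : Type} [Fintype V] [DecidableEq V] (G : SimpleGraph V) [DecidableRel G.Adj]

/-- `f(N[v])`. -/
def nsum (f : V → ℤ) (v : V) : ℤ := ∑ u ∈ univ.filter (fun u => u = v ∨ G.Adj v u), f u

def IsSigned (f : V → ℤ) : Prop := (∀ v, f v = -1 ∨ f v = 1) ∧ ∀ v, 1 ≤ nsum G f v

def IsMinus (f : V → ℤ) : Prop := (∀ v, f v = -1 ∨ f v = 0 ∨ f v = 1) ∧ ∀ v, 1 ≤ nsum G f v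

def IsMinimalMinus (f : V → ℤ) : Prop :=
  IsMinus G f ∧ ∀ g, IsMinus G g → (∀ u, g u ≤ f u) → g = f

theorem minimal {f : V → ℤ} (h : IsMinus G f)
    (h' : ∀ v, 0 ≤ f v → ∃ u, (v = u ∨ G.Adj u v) ∧ nsum G f u = 1) : IsMinimalMinus G f := by
  refine ⟨h, fun g hg le => funext fun v => by_contra fun ne => ?_⟩
  have lt := lt_of_le_of_ne (le v) ne
  obtain ⟨u, h1, h2⟩ := h' v (by have := hg.1 v; omega)
  have : nsum G g u < nsum G f u :=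
    sum_lt_sum (fun i _ => le i) ⟨v, mem_filter.2 ⟨mem_univ _, h1⟩, lt⟩
  have := hg.2 u
  omega
end defs

def E : List (Fin 16 × Fin 16) := [(0, 1), (0, 2), (0, 3), (8, 10), (8, 14), (8, 3), (9, 4), (9, 12), (9, 3), (15, 12), (15, 14), (15, 11), (4, 1), (4, 10), (1, 5), (10, 5), (12, 6), (5, 11), (6, 2), (6, 13), (2, 7), (14, 13), (11, 7), (7, 13)]

def H : SimpleGraph (Fin 16) := SimpleGraph.fromRel fun a b => (a, b) ∈ E

instance : DecidableRel H.Adj := fun a b =>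
  decidable_of_iff (a ≠ b ∧ ((a, b) ∈ E ∨ (b, a) ∈ E)) Iff.rfl

theorem result : ∃ (n : ℕ) (G : SimpleGraph (Fin n)) (_ : DecidableRel G.Adj),
    G.IsRegularOfDegree 3 ∧ ∃ f g : Fin n → ℤ, IsMinimalMinus G f ∧ IsSigned G g ∧
      ∑ v, g v < ∑ v, f v := by
  refine ⟨16, H, inferInstance, ?_, ![1, 1, 1, 1, 0, -1, 1, 1, 1, 1, 1, 1, -1, 0, 1, 0],
    ![1, -1, 1, 1, 1, 1, 1, -1, -1, 1, 1, 1, -1, 1, 1, 1], minimal H ⟨?_, ?_⟩ ?_, ⟨?_, ?_⟩, ?_⟩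
  · unfold SimpleGraph.IsRegularOfDegree; decide +kernel
  all_goals decide +kernel

end Pool.Agent.Results.MP_260dff_co.Cubic
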